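import Pool.Agent.TH216.G4.T3
import Pool.Agent.TH216.G3.E2
import Pool.Agent.TH216.ND.Nd2

set_option autoImplicit false

/-! Nondegenerate polynomials in at most three variables: the motivic zeta functions. -/

namespace Pool.Agent.TH216.G4

open MvPolynomial Pool.Agent.H628R4.TP Pool.Agent.W425.MM
open Pool.Agent.W425.ND (spa Nondeg prodb prodb_eval parts)
open Pool.Agent.W426.SM (gord IsRay face)
open Pool.Agent.W425.SG (UnitEq)
open Pool.Agent.TH216.HD hiding IsRay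
open Pool.Agent.TH216.MF (InC inC_self)
open Pool.Agent.TH216.MC (pos_of_ray)
open Pool.Agent.TH216.G3
open Pool.Agent.W428.MOT (Pt Constr ratRing sp LuMu InRat zetaE)
open Pool.Agent.W375.MG (zetaG Good)

variable {r N : ℕ}

theorem hbs_nd [NeZero r] (hN3 : N ≤ 3) (v : Fin r → Fin N → ℕ)
    (hv : Function.Injective v) (hv0 : ∀ j, v j ≠ 0) :
    HBS v fun σ => σ ≠ 1 ∧ ¬ RT v (-σ) := by
  intro J
  by_cases hns : ∃ i k, J = {i, k} ∧ SpJ v i k
  · exact Or.inl hns
  · refine Or.inr ?_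
    rintro q hq e he T0 hT0 σ ⟨h1, h2⟩ hlog
    exact hb_three2 hN3 v hv hv0 v hv (fun j => ⟨j, rfl⟩)
      (fun x => inC_self v _ x (Finset.mem_univ _)) J hns q hq e he T0 hT0 σ h1 h2 hlog

/-- the root modulo integers -/
theorem root_nd [NeZero r] (v : Fin r → Fin N → ℕ) (hv : Function.Injective v)
    (a : Fin r → ℂ) (hnd : Nondeg v a) (b : Polynomial ℂ) (hb : UnitEq False (spa v a) b)
    (α : ℚ) (hα : RT v α) : ∃ i : ℤ, b.eval ((α : ℂ) - i) = 0 := by
  obtain ⟨K, hK⟩ := relAll parts False v a hv hnd b hb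
  have h1 := hα (prodb b K) hK
  rw [prodb_eval, Finset.prod_eq_zero_iff] at h1
  obtain ⟨i, -, hi⟩ := h1
  exact ⟨(i : ℤ), by exact_mod_cast hi⟩

theorem spa_deg (v : Fin r → Fin N → ℕ) (hv : Function.Injective v) (c : Fin r → ℂ)
    (j1 : Fin r) (h1 : v j1 ≠ 0) (hc : c j1 ≠ 0) : (spa v c).totalDegree ≠ 0 := by
  intro hd
  rw [totalDegree_eq_zero_iff] at hd
  have hco : coeff (Finsupp.equivFunOnFinite.symm (v j1)) (spa v c) = c j1 :=
    Pool.Agent.W425.GN.coef_spa v hv _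
  apply h1
  funext x
  exact hd _ (mem_support_iff.2 (by rw [hco]; exact hc)) x

/-- **Nondegenerate polynomials, at most three variables.** -/
theorem nd_mot3 {k : Type} [Field k] [Algebra k ℂ] (hN3 : N ≤ 3)
    (v : Fin r → Fin N → ℕ) (hv : Function.Injective v) (hv1 : ∃ j, v j ≠ 0)
    (c : Fin r → k) (hc : ∀ j, c j ≠ 0)
    (hnd : Nondegenerate v (fun j => algebraMap k ℂ (c j))) :
    ∃ S : Finset (ℤ × ℤ),
      (∀ p ∈ S, p.1 < 0 ∧ 0 < p.2 ∧ ∀ b : Polynomial ℂ,
        IsBFunction (spa v (fun j => algebraMap k ℂ (c j))) b →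
          ∃ i : ℤ, b.eval ((p.1 : ℂ) / p.2 - i) = 0) ∧
      (∀ (K : Type) [Field K] [Algebra k K] (W : Set (Pt K (Fin N)))
        (E : Set (AlgebraicClosure K)), Constr W → Good E →
        zetaG (spa v (fun j => algebraMap k K (c j))) W E ∈ ratRing K S) ∧
      InRat (LuMu (spa v c)) S (zetaE (spa v c)) := by
  classical
  obtain ⟨j1, hj1⟩ := hv1
  have hr : 0 < r := Fin.pos j1
  have hne : NeZero r := ⟨by omega⟩
  have hkc : CharZero k := RingHom.charZero (algebraMap k ℂ)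
  have hnd' : Nondeg v (fun j => algebraMap k ℂ (c j)) := hnd
  have hspa : ∀ {K : Type} [Field K] (c' : Fin r → K), spa v c' = sp 0 v c' 1 := by
    intro K _ c'
    unfold sp spa
    simp
  obtain ⟨S, hS, hz1, hz2⟩ : ∃ S : Finset (ℤ × ℤ),
      (∀ p ∈ S, p.1 < 0 ∧ 0 < p.2 ∧ ∀ b : Polynomial ℂ,
        IsBFunction (spa v (fun j => algebraMap k ℂ (c j))) b →
          ∃ i : ℤ, b.eval ((p.1 : ℂ) / p.2 - i) = 0) ∧
      (∀ (K : Type) [Field K] [CharZero K] (c : Fin r → K), Mot.NonG v c → (∀ j, c j ≠ 0) →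
      ∀ (W : Set (Pt K (Fin N))) (E : Set (AlgebraicClosure K)), Constr W → Good E →
        zetaG (sp 0 v c 1) W E ∈ ratRing K S) ∧
      ∀ (k : Type) [Field k] [CharZero k] (c : Fin r → k), Mot.NonG v c → (∀ j, c j ≠ 0) →
        InRat (LuMu (sp 0 v c 1)) S (zetaE (sp 0 v c 1)) := by
    by_cases hv0 : ∀ j, v j ≠ 0
    · obtain ⟨S, hS, hz1, hz2⟩ := both_sp hN3 v hr _ (hbs_nd hN3 v hv hv0)
      refine ⟨S, fun p hp => ?_, hz1, hz2⟩
      rcases hS p hp with rfl | ⟨a, ha, hg, hn, rfl⟩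
      · refine ⟨by norm_num, by norm_num, fun b hb => ⟨0, ?_⟩⟩
        have h1 : (((-1 : ℤ) : ℂ) / ((1 : ℤ) : ℂ) - ((0 : ℤ) : ℂ)) = -1 := by
          push_cast
          ring
        rw [h1]
        exact (of_global v (by omega) _ hv hv0 hnd' b hb).1
      · refine ⟨pos_of_ray ha, Int.natCast_pos.2 hg, fun b hb => ?_⟩
        obtain ⟨hb1, hbU⟩ := of_global v (by omega) _ hv hv0 hnd' b hb
        have e : ((-((∑ i, a i : ℕ) : ℤ) : ℤ) : ℂ) / ((gord v a : ℤ) : ℂ) =
            ((-(((∑ i, a i : ℕ) : ℚ) / gord v a) : ℚ) : ℂ) := by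
          push_cast
          ring
        by_cases h1 : ((∑ i, a i : ℕ) : ℚ) / gord v a = 1
        · refine ⟨0, ?_⟩
          rw [e, h1]
          push_cast
          rw [sub_zero]
          exact hb1
        · have h2 : RT v (-(((∑ i, a i : ℕ) : ℚ) / gord v a)) := by
            by_contra hcon
            exact hn ⟨h1, hcon⟩
          obtain ⟨i, hi⟩ := root_nd v hv _ hnd' b hbU _ h2
          exact ⟨i, by rw [e]; exact hi⟩
    · push Not at hv0
      obtain ⟨j0, hj0⟩ := hv0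
      obtain ⟨S, hS, hz1, hz2⟩ := both_const v hr j0 hj0 fun _ => False
      refine ⟨S, fun p hp => ?_, hz1, hz2⟩
      rcases hS p hp with rfl | ⟨a, ha, hg, hn, rfl⟩
      · refine ⟨by norm_num, by norm_num, fun b hb => ⟨0, ?_⟩⟩
        have h1 : (((-1 : ℤ) : ℂ) / ((1 : ℤ) : ℂ) - ((0 : ℤ) : ℂ)) = -1 := by
          push_cast
          ring
        rw [h1]
        exact bneg1 _ (spa_deg v hv _ j1 hj1 ((map_ne_zero (algebraMap k ℂ)).2 (hc j1))) b hb
      · exfalso
        rw [gord_zero v j0 hj0] at hg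
        exact lt_irrefl _ hg
  refine ⟨S, hS, ?_, ?_⟩
  · intro K _ _ W E hW hE
    have hK : CharZero K := charZero_of_injective_algebraMap (algebraMap k K).injective
    rw [hspa]
    exact hz1 K _ (nonG_of Pool.Agent.W67.MM.taskB1 k K v c hr hnd')
      (fun j => (map_ne_zero _).2 (hc j)) W E hW hE
  · rw [hspa]
    have h1 := nonG_of Pool.Agent.W67.MM.taskB1 k k v c hr hnd'
    exact hz2 k c h1 hc

end Pool.Agent.TH216.G4
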