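import Pool.Agent.TH216.G3.S10
import Pool.Agent.W425.MM.Fin

set_option autoImplicit false

/-! The roots of the relations, an abstract form of the results of `G3`. -/

namespace Pool.Agent.TH216.G4

open MvPolynomial Pool.Agent.H628R4.TP Pool.Agent.W425.SV Pool.Agent.W425.MM
open Pool.Agent.W425.GN
open Pool.Agent.W426.SM (gord ford IsRay face)
open Pool.Agent.W803.SM (gord_le exists_gord)
open Pool.Agent.TH216.MF
open Pool.Agent.TH216.G3
open Pool.Agent.TH216.LX (Vert InN gord_np aJ_phiN vert2 Circ circ_root atMost3 NegI LocL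
  hypSY_of_locL)
open Pool.Agent.TH216.ID (YOK recJ_genY)

variable {r N R : ℕ}

/-- `α` is a root of the polynomials of all the relations -/
def RT (v : Fin r → Fin N → ℕ) (α : ℚ) : Prop :=
  ∀ p : Polynomial ℂ, (∀ θ : Fin r → ℝ, LinearIndependent ℚ θ → RelV v θ False p) →
    p.eval (α : ℂ) = 0

theorem rel_all [NeZero r] (v : Fin r → Fin N → ℕ)
    (_ : Function.Injective v) (_ : ∀ j, v j ≠ 0) (α : ℚ) (hn : ¬ RT v α) :
    ∃ B : Polynomial ℂ, B.eval (α : ℂ) ≠ 0 ∧
      ∀ θ : Fin r → ℝ, LinearIndependent ℚ θ → RelV v θ False B := by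
  unfold RT at hn
  push Not at hn
  obtain ⟨p, h1, h2⟩ := hn
  exact ⟨p, h2, h1⟩

/-- the root, from affinely independent exponents -/
theorem hp_aff [NeZero r] (v : Fin r → Fin N → ℕ)
    (_ : Function.Injective v) (_ : ∀ j, v j ≠ 0) (a : Fin N → ℕ) (hg : 0 < gord v a)
    (D : Finset (Fin r)) (hDf : ∀ j ∈ D, face v a j) (hD : Aff v D) (y : Fin r → ℚ)
    (hy0 : ∀ j, j ∉ D → y j = 0) (hy : ∀ i, a i ≠ 0 → ∑ j, y j * (v j i : ℚ) = -1)
    (hyn : ∀ j, ¬ NegI (y j)) :
    RT v (-(((∑ i, a i : ℕ) : ℚ) / gord v a)) := by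
  intro p hp
  obtain ⟨θ, hθ, hR⟩ := aff_root v a hg D hDf hD y hy0 hy hyn
  rw [← hR p (hp θ hθ)]
  congr 1
  push_cast
  ring

theorem hp_nonB [NeZero r] (v : Fin r → Fin N → ℕ)
    (_ : Function.Injective v) (_ : ∀ j, v j ≠ 0) (a : Fin N → ℕ) (hg : 0 < gord v a)
    (hu : NonB v False a) : RT v (-(((∑ i, a i : ℕ) : ℚ) / gord v a)) := by
  intro p hp
  rw [← Pool.Agent.W425.MM.a5 v False p hp a hg hu]
  congr 1
  push_cast
  ring

/-- two exponents with `x_i` to the first power, over the same point -/
theorem hp_pair [NeZero r] (v : Fin r → Fin N → ℕ)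
    (hv : Function.Injective v) (hv0 : ∀ j, v j ≠ 0)  (a : Fin N → ℕ) (hg : 0 < gord v a)
    (i k : Fin N) (hik : i ≠ k) (hsupp : ∀ x, x ≠ i → x ≠ k → a x = 0) (hai : a i ≠ 0)
    (hak : a k ≠ 0) (α β γ : Fin r) (hαβ : α ≠ β) (hα : face v a α) (hβ : face v a β)
    (hγ : face v a γ) (hα1 : v α i = 1) (hβ1 : v β i = 1) (hγ0 : v γ i = 0)
    (hbc : v α k ≠ 0 ∨ v γ k ≠ 1) :
    RT v (-(((∑ i, a i : ℕ) : ℚ) / gord v a)) := by
  classical
  have hval : ∀ j, ∑ x, a x * v j x = a i * v j i + a k * v j k := by
    intro j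
    rw [← Finset.sum_pair (f := fun x => a x * v j x) hik]
    refine (Finset.sum_subset (Finset.subset_univ _) fun x _ hx => ?_).symm
    rw [Finset.mem_insert, Finset.mem_singleton] at hx
    push Not at hx
    rw [hsupp x hx.1 hx.2, zero_mul]
  have eα : a i + a k * v α k = gord v a := by
    have := hα
    unfold face at this
    rw [hval, hα1, mul_one] at this
    exact this
  have eβ : a i + a k * v β k = gord v a := by
    have := hβ
    unfold face at this
    rw [hval, hβ1, mul_one] at this
    exact this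
  have eγ : a k * v γ k = gord v a := by
    have := hγ
    unfold face at this
    rw [hval, hγ0, mul_zero, zero_add] at this
    exact this
  have hb : v β k = v α k := Nat.eq_of_mul_eq_mul_left (Nat.pos_of_ne_zero hak) (by omega)
  have hγk : v γ k ≠ 0 := by
    intro h0
    rw [h0, mul_zero] at eγ
    omega
  have hc0 : (v γ k : ℚ) ≠ 0 := by exact_mod_cast hγk
  have hγα : γ ≠ α := by
    rintro rfl
    omega
  have hγβ : γ ≠ β := by
    rintro rfl
    omega
  set y : Fin r → ℚ := fun j => if j = α then -(1 / 2) else if j = β then -(1 / 2) else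
    if j = γ then ((v α k : ℚ) - 1) / v γ k else 0 with hy
  have yα : y α = -(1 / 2) := by simp [hy]
  have yβ : y β = -(1 / 2) := by simp [hy, hαβ.symm]
  have yγ : y γ = ((v α k : ℚ) - 1) / v γ k := by simp [hy, hγα, hγβ]
  have hsum3 : ∀ f : Fin r → ℚ, (∀ j, j ∉ ({α, β, γ} : Finset (Fin r)) → f j = 0) →
      ∑ j, f j = f α + f β + f γ := by
    intro f hf
    rw [← Finset.sum_subset (Finset.subset_univ ({α, β, γ} : Finset (Fin r)))
      fun j _ hj => hf j hj]
    rw [Finset.sum_insert (by
      rw [Finset.mem_insert, Finset.mem_singleton]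
      push Not
      exact ⟨hαβ, hγα.symm⟩), Finset.sum_pair hγβ.symm]
    ring
  refine hp_aff v hv hv0 a hg {α, β, γ} ?_ ?_ y ?_ ?_ ?_
  · intro j hj
    rw [Finset.mem_insert, Finset.mem_insert, Finset.mem_singleton] at hj
    rcases hj with rfl | rfl | rfl
    · exact hα
    · exact hβ
    · exact hγ
  · intro w hw h1 h2
    have e1 := hsum3 w hw
    rw [h1] at e1
    have e2 : ∀ x, w α * v α x + w β * v β x + w γ * v γ x = 0 := fun x => by
      rw [← hsum3 (fun j => w j * (v j x : ℚ)) fun j hj => by rw [hw j hj, zero_mul]]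
      exact h2 x
    have e3 := e2 i
    rw [hα1, hβ1, hγ0] at e3
    push_cast at e3
    have e4 : w γ = 0 := by linarith
    have e5 : w β = -w α := by linarith
    have e6 : w α = 0 := by
      by_contra hne
      apply hαβ
      apply hv
      funext x
      have e7 := e2 x
      rw [e4, e5] at e7
      have e8 : w α * ((v α x : ℚ) - v β x) = 0 := by linarith
      have e9 := (mul_eq_zero.1 e8).resolve_left hne
      have : (v α x : ℚ) = v β x := by linarith
      exact_mod_cast this
    intro j
    by_cases hj : j ∈ ({α, β, γ} : Finset (Fin r))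
    · rw [Finset.mem_insert, Finset.mem_insert, Finset.mem_singleton] at hj
      rcases hj with rfl | rfl | rfl
      · exact e6
      · rw [e5, e6, neg_zero]
      · exact e4
    · exact hw j hj
  · intro j hj
    rw [Finset.mem_insert, Finset.mem_insert, Finset.mem_singleton] at hj
    push Not at hj
    simp [hy, hj.1, hj.2.1, hj.2.2]
  · intro x hx
    rw [hsum3 (fun j => y j * (v j x : ℚ)) fun j hj => by
      rw [Finset.mem_insert, Finset.mem_insert, Finset.mem_singleton] at hj
      push Not at hj
      simp [hy, hj.1, hj.2.1, hj.2.2]]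
    simp only [yα, yβ, yγ]
    by_cases hxi : x = i
    · rw [hxi, hα1, hβ1, hγ0]
      push_cast
      ring
    · have hxk : x = k := by
        by_contra h'
        exact hx (hsupp x hxi h')
      rw [hxk, hb, div_mul_cancel₀ _ hc0]
      ring
  · rintro j ⟨m, hm, hjm⟩
    have hhalf : ∀ m : ℕ, (-(1 / 2) : ℚ) ≠ -(m : ℚ) := by
      intro m h1
      have h2 : (1 : ℚ) = 2 * m := by linarith
      have h3 : (1 : ℕ) = 2 * m := by exact_mod_cast h2
      omega
    by_cases hjα : j = α
    · rw [hjα, yα] at hjm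
      exact hhalf m hjm
    by_cases hjβ : j = β
    · rw [hjβ, yβ] at hjm
      exact hhalf m hjm
    by_cases hjγ : j = γ
    · rw [hjγ, yγ, div_eq_iff hc0] at hjm
      have h1 : (1 : ℚ) = v α k + m * v γ k := by linarith
      have h2 : (1 : ℕ) = v α k + m * v γ k := by exact_mod_cast h1
      have h3 : 1 ≤ m * v γ k := Nat.mul_pos hm (Nat.pos_of_ne_zero hγk)
      have h4 : v α k = 0 := by omega
      have h5 : m * v γ k = 1 := by omega
      have h6 : v γ k = 1 := Nat.eq_one_of_mul_eq_one_left h5
      rcases hbc with h7 | h7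
      · exact h7 h4
      · exact h7 h6
    · have : y j = 0 := by simp [hy, hjα, hjβ, hjγ]
      rw [this] at hjm
      have h1 : (m : ℚ) = 0 := by linarith
      have h2 : m = 0 := by exact_mod_cast h1
      omega

/-- the relation for the vertices of the zeroed family -/
theorem rel_sub [NeZero r] (v : Fin r → Fin N → ℕ)
    (hv : Function.Injective v) (hv0 : ∀ j, v j ≠ 0)  (α : ℚ) (hn : ¬ RT v α) (J : Finset (Fin N))
    {R : ℕ} (w : Fin R → Fin N → ℕ) (ι : Fin R → Fin r) (hι : Function.Injective ι)
    (hw : ∀ k, zf J v (ι k) = w k)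
    (hcov : ∀ j, ∃ l : Fin R → ℝ, (∀ k, 0 ≤ l k) ∧ ∑ k, l k = 1 ∧
        ∀ i, ∑ k, l k * (w k i : ℝ) ≤ (zf J v j i : ℝ)) :
    ∃ (θ : Fin R → ℤ) (p : Polynomial ℂ),
      RelG w (Kil1 w) (KilU w θ) p ∧ p.eval (α : ℂ) ≠ 0 := by
  obtain ⟨B, hB, hrel⟩ := rel_all v hv hv0 α hn
  obtain ⟨θ', hθ'⟩ := Pool.Agent.TH216.ND.relG_restrNP (zf J v) w ι hι hw
    (fun j _ => hcov j) False B fun θ hθ => relV_zf J v θ B (hrel θ hθ)
  exact ⟨θ', B, hθ', hB⟩

/-- one coordinate -/
theorem ray_root1 [NeZero r] (v : Fin r → Fin N → ℕ)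
    (hv : Function.Injective v) (hv0 : ∀ j, v j ≠ 0)  (a : Fin N → ℕ) (hg : 0 < gord v a) (i0 : Fin N)
    (hi0 : ∀ i, a i ≠ 0 ↔ i = i0) :
    ∑ i, a i = gord v a ∨ RT v (-(((∑ i, a i : ℕ) : ℚ) / gord v a)) := by
  rcases Pool.Agent.TH216.LX.case1 v a (Nat.pos_of_ne_zero (NeZero.ne r)) hg i0 hi0 with h1 | h1
  · exact Or.inl h1
  · exact Or.inr (hp_nonB v hv hv0 a hg (nonB_F h1))

/-- two coordinates -/
theorem ray_root2 [NeZero r] (v : Fin r → Fin N → ℕ)
    (hv : Function.Injective v) (hv0 : ∀ j, v j ≠ 0)  (a : Fin N → ℕ) (hg : 0 < gord v a)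
    (i k : Fin N) (hik : i ≠ k) (hsupp : ∀ x, x ≠ i → x ≠ k → a x = 0) (hai : a i ≠ 0)
    (hak : a k ≠ 0) (α β γ : Fin r) (hαβ : α ≠ β) (hα : face v a α) (hβ : face v a β)
    (hγ : face v a γ) (hα1 : v α i = 1) (hβ1 : v β i = 1) (hγα : v γ i ≠ v α i ∨ v γ k ≠ v α k)
    (hns : ¬ (v α k = 0 ∧ v γ i = 0 ∧ v γ k = 1)) :
    RT v (-(((∑ i, a i : ℕ) : ℚ) / gord v a)) := by
  classical
  have hval : ∀ j, ∑ x, a x * v j x = a i * v j i + a k * v j k := by
    intro j
    rw [← Finset.sum_pair (f := fun x => a x * v j x) hik]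
    refine (Finset.sum_subset (Finset.subset_univ _) fun x _ hx => ?_).symm
    rw [Finset.mem_insert, Finset.mem_singleton] at hx
    push Not at hx
    rw [hsupp x hx.1 hx.2, zero_mul]
  have eα : a i + a k * v α k = gord v a := by
    have := hα
    unfold face at this
    rw [hval, hα1, mul_one] at this
    exact this
  have eβ : a i + a k * v β k = gord v a := by
    have := hβ
    unfold face at this
    rw [hval, hβ1, mul_one] at this
    exact this
  have eγ : a i * v γ i + a k * v γ k = gord v a := by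
    have := hγ
    unfold face at this
    rw [hval] at this
    exact this
  have hkp := Nat.pos_of_ne_zero hak
  have hip := Nat.pos_of_ne_zero hai
  have hb : v β k = v α k := Nat.eq_of_mul_eq_mul_left hkp (by omega)
  have hc3 : v γ i = 0 ∨ v γ i = 1 ∨ 2 ≤ v γ i := by omega
  rcases hc3 with hx | hx | hx
  · refine hp_pair v hv hv0 a hg i k hik hsupp hai hak α β γ hαβ hα hβ hγ hα1 hβ1 hx ?_
    by_contra hcon
    push Not at hcon
    exact hns ⟨hcon.1, hx, hcon.2⟩
  · exfalso
    rw [hx, mul_one] at eγ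
    have : v γ k = v α k := Nat.eq_of_mul_eq_mul_left hkp (by omega)
    rcases hγα with h1 | h1
    · exact h1 (by rw [hx, hα1])
    · exact h1 this
  · have hlt : v γ k < v α k := by
      have h1 : a i * 2 ≤ a i * v γ i := Nat.mul_le_mul_left _ hx
      have h2 : a k * v γ k < a k * v α k := by omega
      exact Nat.lt_of_mul_lt_mul_left h2
    by_cases hb1 : v α k = 1
    · have hγ0 : v γ k = 0 := by omega
      refine hp_pair v hv hv0 a hg k i hik.symm (fun x h1 h2 => hsupp x h2 h1) hak hai α β γ
        hαβ hα hβ hγ hb1 (by rw [hb, hb1]) hγ0 (Or.inl (by omega))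
    · have hb2 : 2 ≤ v α k := by omega
      have hαγ : α ≠ γ := by
        rintro rfl
        omega
      have hsum2 : ∀ f : Fin r → ℚ, (∀ j, j ∉ ({α, γ} : Finset (Fin r)) → f j = 0) →
          ∑ j, f j = f α + f γ := by
        intro f hf
        rw [← Finset.sum_subset (Finset.subset_univ ({α, γ} : Finset (Fin r)))
          fun j _ hj => hf j hj, Finset.sum_pair hαγ]
      refine hp_nonB v hv hv0 a hg (nonB_ofF v a {α, γ} ?_ ?_ ?_ ?_)
      · rw [Finset.card_pair hαγ]
        have : (Finset.univ.filter fun x => a x ≠ 0) = {i, k} := by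
          ext x
          simp only [Finset.mem_filter, Finset.mem_univ, true_and, Finset.mem_insert,
            Finset.mem_singleton]
          constructor
          · intro hx
            by_contra hcon
            push Not at hcon
            exact hx (hsupp x hcon.1 hcon.2)
          · rintro (rfl | rfl)
            · exact hai
            · exact hak
        rw [this, Finset.card_pair hik]
      · intro j hj
        rw [Finset.mem_insert, Finset.mem_singleton] at hj
        rcases hj with rfl | rfl
        · exact hα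
        · exact hγ
      · intro w hw h1
        have e1 : ∀ x, a x ≠ 0 → w α * (v α x : ℚ) + w γ * (v γ x : ℚ) = 0 := fun x hx => by
          rw [← hsum2 (fun j => w j * (v j x : ℚ)) fun j hj => by rw [hw j hj, zero_mul]]
          exact h1 x hx
        have e2 := e1 i hai
        have e3 := e1 k hak
        rw [hα1] at e2
        push_cast at e2
        have e4 : w γ * ((v γ k : ℚ) - v γ i * v α k) = 0 := by
          have : w α = -(w γ * v γ i) := by linarith
          rw [this] at e3
          linear_combination e3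
        have e5 : ((v γ k : ℚ) - v γ i * v α k) ≠ 0 := by
          have h2 : v γ k < v γ i * v α k := by
            have : 1 * v α k ≤ v γ i * v α k := Nat.mul_le_mul_right _ (by omega)
            omega
          have h3 : (v γ k : ℚ) < v γ i * v α k := by exact_mod_cast h2
          linarith
        have e6 := (mul_eq_zero.1 e4).resolve_right e5
        have e7 : w α = 0 := by
          rw [e6] at e2
          linarith
        intro j
        by_cases hj : j ∈ ({α, γ} : Finset (Fin r))
        · rw [Finset.mem_insert, Finset.mem_singleton] at hj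
          rcases hj with rfl | rfl
          · exact e7
          · exact e6
        · exact hw j hj
      · intro x hx
        have hxx : x = i ∨ x = k := by
          by_contra hcon
          push Not at hcon
          exact hx (hsupp x hcon.1 hcon.2)
        rintro ⟨j0, hj0, h1, h2⟩
        rw [Finset.mem_insert, Finset.mem_singleton] at hj0
        rcases hxx with rfl | rfl
        · rcases hj0 with rfl | rfl
          · have := h2 γ (by simp) hαγ.symm
            omega
          · omega
        · rcases hj0 with rfl | rfl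
          · omega
          · have := h2 α (by simp) hαγ
            omega

/-- the roots from circuits -/
theorem hp_circ [NeZero r] (v : Fin r → Fin N → ℕ)
    (hv : Function.Injective v) (hv0 : ∀ j, v j ≠ 0)  (u : Fin N → ℕ) (hgu : 0 < gord v u) (hu : Circ v u) :
    RT v (-(((∑ i, u i : ℕ) : ℚ) / gord v u)) := by
  by_contra hcon
  obtain ⟨B, hB, hrel⟩ := rel_all v hv hv0 _ hcon
  obtain ⟨θ, hθ, hR⟩ := circ_root v u hgu hu
  apply hB
  rw [← hR B (relV_true (hrel θ hθ))]
  congr 1
  push_cast
  ring

end Pool.Agent.TH216.G4
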