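import Pool.Agent.TH216.G4.T1

set_option autoImplicit false

/-! The recurrences. -/

namespace Pool.Agent.TH216.G4

open MvPolynomial Pool.Agent.H628R4.TP Pool.Agent.W425.SV Pool.Agent.W425.MM
open Pool.Agent.W425.GN
open Pool.Agent.W426.SM (gord ford IsRay face)
open Pool.Agent.W803.SM (gord_le exists_gord)
open Pool.Agent.TH216.MF
open Pool.Agent.TH216.G3
open Pool.Agent.TH216.LX (Vert InN gord_np aJ_phiN vert2 Circ circ_root atMost3 NegI LocL
  hypSY_of_locL)
open Pool.Agent.TH216.ID (YOK recJ_genY)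

variable {r N R : ℕ}

/-- the root from a ray through a bad apex -/
theorem bad_ray [NeZero r] (v : Fin r → Fin N → ℕ)
    (hv : Function.Injective v) (hv0 : ∀ j, v j ≠ 0)  (J : Finset (Fin N)) (hJ : J.card ≤ 2) (ι : Fin R → Fin r)
    (w : Fin R → Fin N → ℕ) (hw : ∀ k, zf J v (ι k) = w k) (hR : 0 < R)
    (hcov : ∀ j, ∃ l : Fin R → ℝ, (∀ k, 0 ≤ l k) ∧ ∑ k, l k = 1 ∧
        ∀ i, ∑ k, l k * (w k i : ℝ) ≤ (zf J v j i : ℝ))
    (hns : ¬ ∃ (k0 k1 : Fin R) (i k : Fin N), i ∈ J ∧ k ∈ J ∧ i ≠ k ∧ w k0 i = 1 ∧ w k0 k = 0 ∧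
      w k1 i = 0 ∧ w k1 k = 1)
    (k : Fin R) (β : Fin r) (hβ : zf J v β = w k) (hne : β ≠ ι k) (i : Fin N) (hi : i ∈ J)
    (hki : w k i = 1) (a : Fin N → ℕ) (ha : IsRay w a) (hg : 0 < gord w a) (hf : face w a k)
    (haJ : ∀ i, i ∉ J → a i = 0) :
    ∑ i, a i = gord w a ∨ RT v (-(((∑ i, a i : ℕ) : ℚ) / gord w a)) := by
  classical
  have hr : 0 < r := Nat.pos_of_ne_zero (NeZero.ne r)
  have hw0 : ∀ i, i ∉ J → ∀ k, w k i = 0 := fun i hi k => by rw [← hw k, zf_out hi]
  have hgv : gord v a = gord w a := by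
    rw [← gord_zf J v a haJ]
    exact gord_np (zf J v) w J hr hR (fun k => ⟨ι k, hw k⟩)
      (fun j => cov_inN hw0 j (hcov j)) a
  have hfv : ∀ k', face w a k' → face v a (ι k') := by
    intro k' hk'
    have h1 := zf_sum J v (ι k') a haJ
    rw [hw k'] at h1
    show ∑ i, a i * v (ι k') i = gord v a
    rw [← h1, hgv]
    exact hk'
  have hfβ : face v a β := by
    have h1 := zf_sum J v β a haJ
    rw [hβ] at h1
    show ∑ i, a i * v β i = gord v a
    rw [← h1, hgv]
    exact hf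
  have hiv : ∀ i' ∈ J, ∀ k', v (ι k') i' = w k' i' := fun i' hi' k' => by
    rw [← hw k', zf_in hi']
  have hiβ : ∀ i' ∈ J, v β i' = w k i' := fun i' hi' => by
    rw [← hβ, zf_in hi']
  rw [← hgv] at hg ⊢
  by_cases h2 : ∃ i' k', i' ≠ k' ∧ a i' ≠ 0 ∧ a k' ≠ 0
  · -- two coordinates
    obtain ⟨x, y, hxy, hax, hay⟩ := h2
    have hxJ : x ∈ J := by
      by_contra hcon
      exact hax (haJ x hcon)
    have hyJ : y ∈ J := by
      by_contra hcon
      exact hay (haJ y hcon)
    have hJe : J = {x, y} := by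
      symm
      apply Finset.eq_of_subset_of_card_le
      · intro z hz
        rw [Finset.mem_insert, Finset.mem_singleton] at hz
        rcases hz with rfl | rfl
        · exact hxJ
        · exact hyJ
      · rw [Finset.card_pair hxy]
        exact hJ
    obtain ⟨z, hzi, hzJ, hJ2, hai, haz⟩ : ∃ z, i ≠ z ∧ z ∈ J ∧ (∀ t ∈ J, t = i ∨ t = z) ∧
        a i ≠ 0 ∧ a z ≠ 0 := by
      have h3 := hi
      rw [hJe, Finset.mem_insert, Finset.mem_singleton] at h3
      rcases h3 with rfl | rfl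
      · refine ⟨y, hxy, hyJ, fun t ht => ?_, hax, hay⟩
        rw [hJe, Finset.mem_insert, Finset.mem_singleton] at ht
        exact ht
      · refine ⟨x, hxy.symm, hxJ, fun t ht => ?_, hay, hax⟩
        rw [hJe, Finset.mem_insert, Finset.mem_singleton] at ht
        exact ht.symm
    have hsupp : ∀ t, t ≠ i → t ≠ z → a t = 0 := by
      intro t h3 h4
      refine haJ t fun h5 => ?_
      rcases hJ2 t h5 with h6 | h6
      · exact h3 h6
      · exact h4 h6
    -- another vertex on the facet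
    obtain ⟨k1, hk1f, hk1⟩ : ∃ k1, face w a k1 ∧ w k1 ≠ w k := by
      by_contra hcon
      push Not at hcon
      obtain ⟨t, ht⟩ := ha.2 (fun t => if t = i then 1 else 0) (fun t h3 => by
        rw [if_neg]
        rintro rfl
        exact hai h3) (fun j j' hj hj' => by
        rw [hcon j hj, hcon j' hj'])
      have h3 := ht z
      rw [if_neg hzi.symm] at h3
      have h4 : (a z : ℚ) ≠ 0 := by exact_mod_cast haz
      have h5 : t = 0 := (mul_eq_zero.1 h3.symm).resolve_right h4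
      have h6 := ht i
      rw [if_pos rfl, h5, zero_mul] at h6
      exact one_ne_zero h6
    right
    refine ray_root2 v hv hv0 a hg i z hzi hsupp hai haz (ι k) β (ι k1) hne.symm
      (hfv k hf) hfβ (hfv k1 hk1f) (by rw [hiv i hi, hki]) (by rw [hiβ i hi, hki]) ?_ ?_
    · by_contra hcon
      push Not at hcon
      apply hk1
      funext t
      by_cases ht : t ∈ J
      · rcases hJ2 t ht with rfl | rfl
        · rw [← hiv t ht, ← hiv t ht]
          exact hcon.1
        · rw [← hiv t ht, ← hiv t ht]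
          exact hcon.2
      · rw [hw0 t ht, hw0 t ht]
    · rintro ⟨h3, h4, h5⟩
      apply hns
      refine ⟨k, k1, i, z, hi, hzJ, hzi, hki, ?_, ?_, ?_⟩
      · rw [← hiv z hzJ]
        exact h3
      · rw [← hiv i hi]
        exact h4
      · rw [← hiv z hzJ]
        exact h5
  · -- one coordinate
    push Not at h2
    obtain ⟨i0, hi0⟩ : ∃ i0, a i0 ≠ 0 := by
      by_contra hcon
      push Not at hcon
      exact ha.1 (funext hcon)
    refine ray_root1 v hv hv0 a hg i0 fun t => ⟨fun ht => ?_, fun ht => ht ▸ hi0⟩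
    by_contra hne
    exact ht (h2 i0 t (Ne.symm hne) hi0)

/-- **The recurrences for the points with all coordinates.** -/
theorem recJ_full [NeZero r] (hN3 : N ≤ 3) (v : Fin r → Fin N → ℕ)
    (hv : Function.Injective v) (hv0 : ∀ j, v j ≠ 0)  {R0 : ℕ} (m : Fin R0 → Fin N → ℕ)
    (hm : Function.Injective m) (hmv : ∀ j, ∃ x, m x = v j)
    (hull : ∀ x, InN v Finset.univ (m x))
    (q : ℕ) (hq : 2 ≤ q) (e : Finset (Fin R0) → ℂ) (he : KRelJ q m Finset.univ e) (T0 : ℂ)
    (hT0 : T0 ≠ 0)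
    (σ : ℚ) (hσ1 : σ ≠ 1) (hσ : ¬ RT v (-σ))
    (hlog : Real.log ‖T0‖ / Real.log q = (σ : ℝ)) : RecJ q m e Finset.univ T0 := by
  classical
  have hr : 0 < r := Nat.pos_of_ne_zero (NeZero.ne r)
  have hz : zf Finset.univ v = v := by
    funext j i
    exact zf_in (Finset.mem_univ i) v j
  obtain ⟨R, ι, hR, hι, hV, hcov⟩ := exists_sub hr v
  set w : Fin R → Fin N → ℕ := fun k => v (ι k) with hw
  have hwι : ∀ k, v (ι k) = w k := fun k => rfl
  have hR0 : 0 < R0 := by
    obtain ⟨x, -⟩ := hmv ⟨0, hr⟩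
    exact Fin.pos x
  have hNv : ∀ j, InN w Finset.univ (v j) := by
    intro j
    obtain ⟨l, h1, h2, h3⟩ := hcov j
    exact ⟨l, h1, h2, h3, fun i hi => absurd (Finset.mem_univ i) hi⟩
  have hNm : ∀ x, InN w Finset.univ (m x) := by
    intro x
    obtain ⟨c, h1, h3, h4, -⟩ := hull x
    choose l hl0 hl1 hl2 using hcov
    refine ⟨fun k => ∑ j, c j * l j k, fun k => Finset.sum_nonneg fun j _ =>
      mul_nonneg (h1 j) (hl0 j k), ?_, fun i => ?_, fun i hi => absurd (Finset.mem_univ i) hi⟩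
    · rw [Finset.sum_comm]
      simp only [← Finset.mul_sum, hl1, mul_one]
      exact h3
    · refine le_trans ?_ (h4 i)
      simp only [Finset.sum_mul]
      rw [Finset.sum_comm]
      refine Finset.sum_le_sum fun j _ => ?_
      have e1 : ∑ k', c j * l j k' * (w k' i : ℝ) = c j * ∑ k', l j k' * (w k' i : ℝ) := by
        rw [Finset.mul_sum]
        exact Finset.sum_congr rfl fun k' _ => by ring
      rw [e1]
      exact mul_le_mul_of_nonneg_left (hl2 j i) (h1 j)
  have hma : ∀ k, ∃ x, m x = w k := fun k => hmv (ι k)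
  have hgv : ∀ a, gord v a = gord w a := fun a =>
    gord_np v w Finset.univ hr hR (fun k => ⟨ι k, rfl⟩) hNv a
  obtain ⟨θ, p, hrel, hp⟩ := rel_sub v hv hv0 (-σ) hσ Finset.univ w ι hι
    (fun k => by rw [hz]) (fun j => by rw [hz]; exact hcov j)
  have he' := krelJ_phi m w hm hma q Finset.univ e he
  have h1 : ((-Real.log ‖T0‖ / Real.log q : ℝ) : ℂ) = ((-σ : ℚ) : ℂ) := by
    rw [neg_div, hlog]
    push_cast
    rfl
  have hL : LocL w ∅ σ := by
    refine fun j1 => Or.inr fun a' _ hg' _ hl => Or.inl ?_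
    have hgv' : 0 < gord v a' := by rw [hgv]; exact hg'
    rcases atMost3 hN3 hR w hV a' hg' with h3 | h3 | h3 | h3
    · exfalso
      apply hσ1
      rw [← hl, h3]
      exact div_self (by exact_mod_cast hg'.ne')
    · exfalso
      apply hσ
      have h4 := hp_nonB v hv hv0 a' hgv' (nonB_sub v w ι hι hwι a' (hgv a') h3)
      rw [hgv, hl] at h4
      exact h4
    · exfalso
      apply hσ
      have h4 := hp_circ v hv hv0 a' hgv' (circ_sub v w ι hι hwι a' (hgv a') h3)
      rw [hgv, hl] at h4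
      exact h4
    · exact h3
  obtain ⟨Q, hQ, hrec⟩ := recJ_genY q hq w ∅ (yok_empty w) p θ hrel Finset.univ _ he' T0 hT0
    (by rw [h1]; exact hp) (by rw [hlog]; exact hypSY_of_locL hR w ∅ σ hL)
  refine ⟨Q, hQ, ?_⟩
  filter_upwards [hrec] with t ht
  rw [← ht]
  refine Finset.sum_congr rfl fun x _ => ?_
  rw [aJ_phiN m w Finset.univ hR0 hR hma hNm]

end Pool.Agent.TH216.G4
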