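import Pool.Agent.TH216.G4.T2

set_option autoImplicit false

/-! The recurrences, with the relations of the special pairs. -/

namespace Pool.Agent.TH216.G4

open MvPolynomial Pool.Agent.H628R4.TP Pool.Agent.W425.SV Pool.Agent.W425.MM
open Pool.Agent.W425.GN
open Pool.Agent.W426.SM (gord ford IsRay face)
open Pool.Agent.W803.SM (gord_le exists_gord)
open Pool.Agent.TH216.MF
open Pool.Agent.TH216.G3
open Pool.Agent.TH216.LX (Vert InN gord_np aJ_phiN vert2 Circ circ_root atMost3 NegI LocL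
  hypSY_of_locL)
open Pool.Agent.TH216.ID (YOK recJ_genY)

variable {r N R : ℕ}

/-- **The recurrences for the points with at most two coordinates.** -/
theorem recJ_plane2 [NeZero r] (v : Fin r → Fin N → ℕ)
    (hv : Function.Injective v) (hv0 : ∀ j, v j ≠ 0)  {R0 : ℕ} (m : Fin R0 → Fin N → ℕ)
    (hm : Function.Injective m) (hmv : ∀ j, ∃ x, m x = v j)
    (hull : ∀ x, InC v Finset.univ (m x)) (J : Finset (Fin N)) (hJ : J.card ≤ 2)
    (hns : ¬ ∃ i k, J = {i, k} ∧ SpJ m i k)
    (q : ℕ) (hq : 2 ≤ q) (e : Finset (Fin R0) → ℂ) (he : KRelJ q m J e) (T0 : ℂ) (hT0 : T0 ≠ 0)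
    (σ : ℚ) (hσ1 : σ ≠ 1) (hσ : ¬ RT v (-σ))
    (hlog : Real.log ‖T0‖ / Real.log q = (σ : ℝ)) : RecJ q m e J T0 := by
  classical
  have hr : 0 < r := Nat.pos_of_ne_zero (NeZero.ne r)
  obtain ⟨R, ι, hR, hι, hV, hcov⟩ := exists_sub hr (zf J v)
  set w : Fin R → Fin N → ℕ := fun k => zf J v (ι k) with hw
  have hwι : ∀ k, zf J v (ι k) = w k := fun k => rfl
  have hw0 : ∀ i, i ∉ J → ∀ k, w k i = 0 := fun i hi k => by rw [← hwι k, zf_out hi]
  have hR0 : 0 < R0 := by
    obtain ⟨x, -⟩ := hmv ⟨0, hr⟩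
    exact Fin.pos x
  have hcovm : ∀ x, ∃ l : Fin R → ℝ, (∀ k, 0 ≤ l k) ∧ ∑ k, l k = 1 ∧
        ∀ i, ∑ k, l k * (w k i : ℝ) ≤ (zf J m x i : ℝ) := by
    intro x
    obtain ⟨c, h1, -, h3, h4⟩ := hull x
    choose l hl0 hl1 hl2 using hcov
    refine ⟨fun k => ∑ j, c j * l j k, fun k => Finset.sum_nonneg fun j _ =>
      mul_nonneg (h1 j) (hl0 j k), ?_, fun i => ?_⟩
    · rw [Finset.sum_comm]
      simp only [← Finset.mul_sum, hl1, mul_one]
      exact h3
    · simp only [Finset.sum_mul]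
      rw [Finset.sum_comm]
      have e0 : (zf J m x i : ℝ) = ∑ j, c j * (zf J v j i : ℝ) := by
        by_cases hi : i ∈ J
        · simp only [zf_in hi]
          exact (h4 i).symm
        · simp only [zf_out hi]
          simp
      rw [e0]
      refine Finset.sum_le_sum fun j _ => ?_
      have e1 : ∑ k', c j * l j k' * (w k' i : ℝ) = c j * ∑ k', l j k' * (w k' i : ℝ) := by
        rw [Finset.mul_sum]
        exact Finset.sum_congr rfl fun k' _ => by ring
      rw [e1]
      exact mul_le_mul_of_nonneg_left (hl2 j i) (h1 j)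
  have hN : ∀ x, InN w J (zf J m x) := fun x => cov_inN hw0 x (hcovm x)
  have hma : ∀ k, ∃ x, zf J m x = w k := by
    intro k
    obtain ⟨x, hx⟩ := hmv (ι k)
    refine ⟨x, ?_⟩
    rw [← hwι k]
    funext i
    by_cases hi : i ∈ J
    · rw [zf_in hi, zf_in hi, hx]
    · rw [zf_out hi, zf_out hi]
  have he0 := krelJ_zf he
  set e' : Finset (Fin R) → ℂ := fun τ => e (PhiC (zf J m) w τ) with he'
  have haJ : ∀ t : ℤ, aJ q w e' J t = aJ q m e J t := by
    intro t
    rw [← aJ_zf q m e J t]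
    exact aJ_phiN (zf J m) w J hR0 hR hma hN q e t
  suffices hmain : RecJ q w e' J T0 by
    obtain ⟨Q, hQ, hrec⟩ := hmain
    refine ⟨Q, hQ, ?_⟩
    filter_upwards [hrec] with t ht
    rw [← ht]
    exact Finset.sum_congr rfl fun m _ => by rw [haJ]
  -- the good apices
  have hgood : ∀ i ∈ J, ∀ j0, w j0 i = 1 → ∀ τ : Finset (Fin R), (∀ j ∈ τ, w j i = 0) →
      ¬ (∃ x y, x ≠ y ∧ zf J m x = w j0 ∧ zf J m y = w j0) →
      ((q : ℂ) - 1) * e' (insert j0 τ) + e' τ = 0 := by
    intro i hi j0 hj0 τ hτ hbad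
    obtain ⟨k0, hk0⟩ := hma j0
    refine good_rel (zf J m) w q J e he0 i hi j0 τ hj0 hτ k0 hk0 fun x hx => ?_
    by_contra hne
    exact hbad ⟨x, k0, hne, hx, hk0⟩
  by_cases hsp : ∃ (k0 k1 : Fin R) (i k : Fin N), i ∈ J ∧ k ∈ J ∧ i ≠ k ∧ w k0 i = 1 ∧
      w k0 k = 0 ∧ w k1 i = 0 ∧ w k1 k = 1
  · -- the special pair
    obtain ⟨k0, k1, i, k, hi, hk, hik, h0i, h0k, h1i, h1k⟩ := hsp
    have hJe : J = {i, k} := by
      symm
      apply Finset.eq_of_subset_of_card_le
      · intro z hz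
        rw [Finset.mem_insert, Finset.mem_singleton] at hz
        rcases hz with rfl | rfl
        · exact hi
        · exact hk
      · rw [Finset.card_pair hik]
        exact hJ
    have hJ2 : ∀ t ∈ J, t = i ∨ t = k := by
      intro t ht
      rw [hJe, Finset.mem_insert, Finset.mem_singleton] at ht
      exact ht
    have hle : ∀ x y : Fin R, w x i ≤ w y i → w x k ≤ w y k → y = x := by
      intro x y h1 h2
      by_contra hne
      refine vert2 hV hne fun t => ?_
      show w x t ≤ w y t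
      by_cases ht : t ∈ J
      · rcases hJ2 t ht with rfl | rfl
        · exact h1
        · exact h2
      · rw [hw0 t ht]
        exact Nat.zero_le _
    have hall : ∀ j, j = k0 ∨ j = k1 := by
      intro j
      by_cases h1 : w j i = 0
      · by_cases h2 : w j k = 0
        · left
          exact (hle j k0 (by omega) (by omega)).symm
        · right
          exact hle k1 j (by omega) (by omega)
      · left
        exact hle k0 j (by omega) (by omega)
    exfalso
    have e1 : ∀ t ∈ J, ∀ x y, zf J m x = w y → m x t = w y t := fun t ht x y hxy => by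
      rw [← hxy, zf_in ht]
    refine hns ⟨i, k, hJe, hik, fun x => ?_, ?_, ?_⟩
    · by_contra hcon
      push Not at hcon
      obtain ⟨l, hl0, hl1, hl2⟩ := hcovm x
      have h3 := hl2 i
      have h4 := hl2 k
      rw [zf_in hi, hcon.1] at h3
      rw [zf_in hk, hcon.2] at h4
      have h5 : ∑ x, l x * (w x i : ℝ) + ∑ x, l x * (w x k : ℝ) = 1 := by
        rw [← Finset.sum_add_distrib, ← hl1]
        refine Finset.sum_congr rfl fun x _ => ?_
        rcases hall x with rfl | rfl
        · rw [h0i, h0k]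
          simp
        · rw [h1i, h1k]
          simp
      push_cast at h3 h4
      linarith
    · obtain ⟨x, hx⟩ := hma k0
      exact ⟨x, by rw [e1 i hi x k0 hx, h0i], by rw [e1 k hk x k0 hx, h0k]⟩
    · obtain ⟨x, hx⟩ := hma k1
      exact ⟨x, by rw [e1 i hi x k1 hx, h1i], by rw [e1 k hk x k1 hx, h1k]⟩
  · -- no special pair
    obtain ⟨θ, p, hrel, hp⟩ := rel_sub v hv hv0 (-σ) hσ J w ι hι hwι hcov
    have h1 : ((-Real.log ‖T0‖ / Real.log q : ℝ) : ℂ) = ((-σ : ℚ) : ℂ) := by
      rw [neg_div, hlog]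
      push_cast
      rfl
    refine recJ_split hR q hq w J e'
      (fun k => (∃ i ∈ J, w k i = 1) ∧ ∃ x y, x ≠ y ∧ zf J m x = w k ∧ zf J m y = w k)
      (fun i hi j0 hj0 τ hτ hbad => hgood i hi j0 hj0 τ hτ fun h2 => hbad ⟨⟨i, hi, hj0⟩, h2⟩)
      T0 σ hlog (fun e'' he'' => recJ_genY q hq w ∅ (yok_empty w) p θ hrel J e'' he'' T0 hT0
        (by rw [h1]; exact hp) (by rw [hlog]; exact hypSY_two hR w hV J hJ hw0 σ)) ?_
    rintro k ⟨⟨i, hi, hki⟩, x, y, hxy, hx, hy⟩ a ha hg hf haJ' hlev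
    obtain ⟨β, hβ, hβk⟩ := fibre v m hm hmv hull J ι w hV hcov k x y hxy hx hy
    rcases bad_ray v hv hv0 J hJ ι w hwι hR hcov hsp k β hβk hβ i hi hki a ha hg hf haJ'
      with h2 | h2
    · apply hσ1
      rw [← hlev, h2]
      exact div_self (by exact_mod_cast hg.ne')
    · rw [hlev] at h2
      exact hσ h2

/-- **All the points without special pairs, at most three variables.** -/
theorem hb_three2 [NeZero r] (hN3 : N ≤ 3) (v : Fin r → Fin N → ℕ)
    (hv : Function.Injective v) (hv0 : ∀ j, v j ≠ 0)  {R0 : ℕ} (m : Fin R0 → Fin N → ℕ)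
    (hm : Function.Injective m) (hmv : ∀ j, ∃ x, m x = v j)
    (hull : ∀ x, InC v Finset.univ (m x)) (J : Finset (Fin N))
    (hns : ¬ ∃ i k, J = {i, k} ∧ SpJ m i k)
    (q : ℕ) (hq : 2 ≤ q) (e : Finset (Fin R0) → ℂ) (he : KRelJ q m J e) (T0 : ℂ) (hT0 : T0 ≠ 0)
    (σ : ℚ) (hσ1 : σ ≠ 1) (hσ : ¬ RT v (-σ))
    (hlog : Real.log ‖T0‖ / Real.log q = (σ : ℝ)) : RecJ q m e J T0 := by
  classical
  by_cases hJ : J.card ≤ 2
  · exact recJ_plane2 v hv hv0 m hm hmv hull J hJ hns q hq e he T0 hT0 σ hσ1 hσ hlog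
  · have hJu : J = Finset.univ := by
      apply Finset.eq_univ_of_card
      have h1 := Finset.card_le_univ J
      rw [Fintype.card_fin] at h1 ⊢
      omega
    subst hJu
    exact recJ_full hN3 v hv hv0 m hm hmv (fun x => by
      obtain ⟨c, h1, -, h3, h4⟩ := hull x
      exact ⟨c, h1, h3, fun i => (h4 i).le, fun i _ => h4 i⟩) q hq e he T0 hT0 σ hσ1 hσ hlog

/-- **The recurrences for the points with at most two coordinates.** -/
theorem recJ_plane3 [NeZero r] (v : Fin r → Fin N → ℕ)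
    (hv : Function.Injective v) (hv0 : ∀ j, v j ≠ 0)  {R0 : ℕ} (m : Fin R0 → Fin N → ℕ)
    (hm : Function.Injective m) (hmv : ∀ j, ∃ x, m x = v j)
    (hull : ∀ x, InC v Finset.univ (m x)) (J : Finset (Fin N)) (hJ : J.card ≤ 2)
    (q : ℕ) (hq : 2 ≤ q) (e : Finset (Fin R0) → ℂ) (he : KRelJ q m J e)
    (hns : SRel q m e) (T0 : ℂ) (hT0 : T0 ≠ 0)
    (σ : ℚ) (hσ1 : σ ≠ 1) (hσ : ¬ RT v (-σ))
    (hlog : Real.log ‖T0‖ / Real.log q = (σ : ℝ)) : RecJ q m e J T0 := by
  classical
  have hr : 0 < r := Nat.pos_of_ne_zero (NeZero.ne r)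
  obtain ⟨R, ι, hR, hι, hV, hcov⟩ := exists_sub hr (zf J v)
  set w : Fin R → Fin N → ℕ := fun k => zf J v (ι k) with hw
  have hwι : ∀ k, zf J v (ι k) = w k := fun k => rfl
  have hw0 : ∀ i, i ∉ J → ∀ k, w k i = 0 := fun i hi k => by rw [← hwι k, zf_out hi]
  have hR0 : 0 < R0 := by
    obtain ⟨x, -⟩ := hmv ⟨0, hr⟩
    exact Fin.pos x
  have hcovm : ∀ x, ∃ l : Fin R → ℝ, (∀ k, 0 ≤ l k) ∧ ∑ k, l k = 1 ∧
        ∀ i, ∑ k, l k * (w k i : ℝ) ≤ (zf J m x i : ℝ) := by
    intro x
    obtain ⟨c, h1, -, h3, h4⟩ := hull x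
    choose l hl0 hl1 hl2 using hcov
    refine ⟨fun k => ∑ j, c j * l j k, fun k => Finset.sum_nonneg fun j _ =>
      mul_nonneg (h1 j) (hl0 j k), ?_, fun i => ?_⟩
    · rw [Finset.sum_comm]
      simp only [← Finset.mul_sum, hl1, mul_one]
      exact h3
    · simp only [Finset.sum_mul]
      rw [Finset.sum_comm]
      have e0 : (zf J m x i : ℝ) = ∑ j, c j * (zf J v j i : ℝ) := by
        by_cases hi : i ∈ J
        · simp only [zf_in hi]
          exact (h4 i).symm
        · simp only [zf_out hi]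
          simp
      rw [e0]
      refine Finset.sum_le_sum fun j _ => ?_
      have e1 : ∑ k', c j * l j k' * (w k' i : ℝ) = c j * ∑ k', l j k' * (w k' i : ℝ) := by
        rw [Finset.mul_sum]
        exact Finset.sum_congr rfl fun k' _ => by ring
      rw [e1]
      exact mul_le_mul_of_nonneg_left (hl2 j i) (h1 j)
  have hN : ∀ x, InN w J (zf J m x) := fun x => cov_inN hw0 x (hcovm x)
  have hma : ∀ k, ∃ x, zf J m x = w k := by
    intro k
    obtain ⟨x, hx⟩ := hmv (ι k)
    refine ⟨x, ?_⟩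
    rw [← hwι k]
    funext i
    by_cases hi : i ∈ J
    · rw [zf_in hi, zf_in hi, hx]
    · rw [zf_out hi, zf_out hi]
  have he0 := krelJ_zf he
  set e' : Finset (Fin R) → ℂ := fun τ => e (PhiC (zf J m) w τ) with he'
  have haJ : ∀ t : ℤ, aJ q w e' J t = aJ q m e J t := by
    intro t
    rw [← aJ_zf q m e J t]
    exact aJ_phiN (zf J m) w J hR0 hR hma hN q e t
  suffices hmain : RecJ q w e' J T0 by
    obtain ⟨Q, hQ, hrec⟩ := hmain
    refine ⟨Q, hQ, ?_⟩
    filter_upwards [hrec] with t ht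
    rw [← ht]
    exact Finset.sum_congr rfl fun m _ => by rw [haJ]
  -- the good apices
  have hgood : ∀ i ∈ J, ∀ j0, w j0 i = 1 → ∀ τ : Finset (Fin R), (∀ j ∈ τ, w j i = 0) →
      ¬ (∃ x y, x ≠ y ∧ zf J m x = w j0 ∧ zf J m y = w j0) →
      ((q : ℂ) - 1) * e' (insert j0 τ) + e' τ = 0 := by
    intro i hi j0 hj0 τ hτ hbad
    obtain ⟨k0, hk0⟩ := hma j0
    refine good_rel (zf J m) w q J e he0 i hi j0 τ hj0 hτ k0 hk0 fun x hx => ?_
    by_contra hne
    exact hbad ⟨x, k0, hne, hx, hk0⟩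
  by_cases hsp : ∃ (k0 k1 : Fin R) (i k : Fin N), i ∈ J ∧ k ∈ J ∧ i ≠ k ∧ w k0 i = 1 ∧
      w k0 k = 0 ∧ w k1 i = 0 ∧ w k1 k = 1
  · -- the special pair
    obtain ⟨k0, k1, i, k, hi, hk, hik, h0i, h0k, h1i, h1k⟩ := hsp
    have hJe : J = {i, k} := by
      symm
      apply Finset.eq_of_subset_of_card_le
      · intro z hz
        rw [Finset.mem_insert, Finset.mem_singleton] at hz
        rcases hz with rfl | rfl
        · exact hi
        · exact hk
      · rw [Finset.card_pair hik]
        exact hJ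
    have hJ2 : ∀ t ∈ J, t = i ∨ t = k := by
      intro t ht
      rw [hJe, Finset.mem_insert, Finset.mem_singleton] at ht
      exact ht
    have hle : ∀ x y : Fin R, w x i ≤ w y i → w x k ≤ w y k → y = x := by
      intro x y h1 h2
      by_contra hne
      refine vert2 hV hne fun t => ?_
      show w x t ≤ w y t
      by_cases ht : t ∈ J
      · rcases hJ2 t ht with rfl | rfl
        · exact h1
        · exact h2
      · rw [hw0 t ht]
        exact Nat.zero_le _
    have hall : ∀ j, j = k0 ∨ j = k1 := by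
      intro j
      by_cases h1 : w j i = 0
      · by_cases h2 : w j k = 0
        · left
          exact (hle j k0 (by omega) (by omega)).symm
        · right
          exact hle k1 j (by omega) (by omega)
      · left
        exact hle k0 j (by omega) (by omega)
    refine recJ_special q hq w J e' T0 k0 k1 i k hik hJ2 hw0 h0i h0k h1i h1k hall ?_
    have h01 : k0 ≠ k1 := by
      rintro rfl
      omega
    have e1 : ∀ t ∈ J, ∀ x y, zf J m x = w y → m x t = w y t := fun t ht x y hxy => by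
      rw [← hxy, zf_in ht]
    have hsp : SpJ m i k := by
      refine ⟨hik, fun x => ?_, ?_, ?_⟩
      · by_contra hcon
        push Not at hcon
        obtain ⟨l, hl0, hl1, hl2⟩ := hcovm x
        have h3 := hl2 i
        have h4 := hl2 k
        rw [zf_in hi, hcon.1] at h3
        rw [zf_in hk, hcon.2] at h4
        have h5 : ∑ x, l x * (w x i : ℝ) + ∑ x, l x * (w x k : ℝ) = 1 := by
          rw [← Finset.sum_add_distrib, ← hl1]
          refine Finset.sum_congr rfl fun x _ => ?_
          rcases hall x with rfl | rfl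
          · rw [h0i, h0k]
            simp
          · rw [h1i, h1k]
            simp
        push_cast at h3 h4
        linarith
      · obtain ⟨x, hx⟩ := hma k0
        exact ⟨x, by rw [e1 i hi x k0 hx, h0i], by rw [e1 k hk x k0 hx, h0k]⟩
      · obtain ⟨x, hx⟩ := hma k1
        exact ⟨x, by rw [e1 i hi x k1 hx, h1i], by rw [e1 k hk x k1 hx, h1k]⟩
    have hphi0 : PhiC (zf J m) w ∅ = ∅ := phi_empty _ _
    have hphi1 : ∀ (y : Fin R) (s t : ℕ), w y i = s → w y k = t → ∀ x,
        x ∈ PhiC (zf J m) w {y} ↔ m x i = s ∧ m x k = t := by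
      intro y s t hs ht x
      rw [mem_PhiC]
      constructor
      · rintro ⟨l, hl0, hl1, hl2, hl3⟩
        have hly : l y = 1 := by
          rw [← hl2]
          symm
          refine Finset.sum_eq_single y (fun j _ hj => hl1 j ?_) fun h => absurd
            (Finset.mem_univ _) h
          rw [Finset.mem_singleton]
          exact hj
        have h6 : ∀ t, (w y t : ℝ) = (zf J m x t : ℝ) := by
          intro t
          rw [← hl3 t, Finset.sum_eq_single y (fun j _ hj => ?_) fun h => absurd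
            (Finset.mem_univ _) h, hly, one_mul]
          rw [hl1 j, zero_mul]
          rw [Finset.mem_singleton]
          exact hj
        have h7 : w y i = m x i := by
          have := h6 i
          rw [zf_in hi] at this
          exact_mod_cast this
        have h8 : w y k = m x k := by
          have := h6 k
          rw [zf_in hk] at this
          exact_mod_cast this
        exact ⟨h7.symm.trans hs, h8.symm.trans ht⟩
      · rintro ⟨h6, h7⟩
        have h8 : zf J m x = w y := by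
          funext z
          by_cases hz : z ∈ J
          · rw [zf_in hz]
            rcases hJ2 z hz with rfl | rfl
            · rw [h6, hs]
            · rw [h7, ht]
          · rw [zf_out hz, hw0 z hz]
        rw [h8]
        exact inC_self w _ y (Finset.mem_singleton_self _)
    have hphi2 : ∀ x, x ∈ PhiC (zf J m) w {k0, k1} ↔ x ∈ Sb m i k := by
      intro x
      rw [mem_Sb]
      constructor
      · intro hx
        rw [mem_PhiC] at hx
        obtain ⟨l, hl0, hl1, hl2, hl3⟩ := hx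
        have h6 := hl3 i
        have h7 := hl3 k
        rw [zf_in hi] at h6
        rw [zf_in hk] at h7
        have h8 : ((m x i + m x k : ℕ) : ℝ) = 1 := by
          push_cast
          rw [← h6, ← h7, ← Finset.sum_add_distrib, ← hl2]
          refine Finset.sum_congr rfl fun x _ => ?_
          rcases hall x with rfl | rfl
          · rw [h0i, h0k]
            simp
          · rw [h1i, h1k]
            simp
        have h9 : m x i + m x k = 1 := by exact_mod_cast h8
        omega
      · intro hx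
        rcases hx with hx | hx
        · have h6 := (hphi1 k0 1 0 h0i h0k x).2 hx
          rw [mem_PhiC] at h6 ⊢
          obtain ⟨l, hl0, hl1, hl2, hl3⟩ := h6
          exact ⟨l, hl0, fun j hj => hl1 j fun h => hj (by
            rw [Finset.mem_singleton.1 h]
            exact Finset.mem_insert_self _ _), hl2, hl3⟩
        · have h6 := (hphi1 k1 0 1 h1i h1k x).2 ⟨hx.2, hx.1⟩
          rw [mem_PhiC] at h6 ⊢
          obtain ⟨l, hl0, hl1, hl2, hl3⟩ := h6
          exact ⟨l, hl0, fun j hj => hl1 j fun h => hj (by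
            rw [Finset.mem_singleton.1 h]
            exact Finset.mem_insert_of_mem (Finset.mem_singleton_self _)), hl2, hl3⟩
    have E1 : PhiC (zf J m) w {k0} = Sa m i k := by
      ext x
      rw [hphi1 k0 1 0 h0i h0k x, mem_Sa]
    have E2 : PhiC (zf J m) w {k1} = Sa m k i := by
      ext x
      rw [hphi1 k1 0 1 h1i h1k x, mem_Sa]
      exact and_comm
    have E3 : PhiC (zf J m) w {k0, k1} = Sb m i k := by
      ext x
      exact hphi2 x
    have hrel := hns i k hsp
    simp only [he']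
    rw [E1, E2, E3, hphi0]
    exact hrel
  · -- no special pair
    obtain ⟨θ, p, hrel, hp⟩ := rel_sub v hv hv0 (-σ) hσ J w ι hι hwι hcov
    have h1 : ((-Real.log ‖T0‖ / Real.log q : ℝ) : ℂ) = ((-σ : ℚ) : ℂ) := by
      rw [neg_div, hlog]
      push_cast
      rfl
    refine recJ_split hR q hq w J e'
      (fun k => (∃ i ∈ J, w k i = 1) ∧ ∃ x y, x ≠ y ∧ zf J m x = w k ∧ zf J m y = w k)
      (fun i hi j0 hj0 τ hτ hbad => hgood i hi j0 hj0 τ hτ fun h2 => hbad ⟨⟨i, hi, hj0⟩, h2⟩)
      T0 σ hlog (fun e'' he'' => recJ_genY q hq w ∅ (yok_empty w) p θ hrel J e'' he'' T0 hT0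
        (by rw [h1]; exact hp) (by rw [hlog]; exact hypSY_two hR w hV J hJ hw0 σ)) ?_
    rintro k ⟨⟨i, hi, hki⟩, x, y, hxy, hx, hy⟩ a ha hg hf haJ' hlev
    obtain ⟨β, hβ, hβk⟩ := fibre v m hm hmv hull J ι w hV hcov k x y hxy hx hy
    rcases bad_ray v hv hv0 J hJ ι w hwι hR hcov hsp k β hβk hβ i hi hki a ha hg hf haJ'
      with h2 | h2
    · apply hσ1
      rw [← hlev, h2]
      exact div_self (by exact_mod_cast hg.ne')
    · rw [hlev] at h2
      exact hσ h2

/-- **All the points, at most three variables.** -/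
theorem hb_three3 [NeZero r] (hN3 : N ≤ 3) (v : Fin r → Fin N → ℕ)
    (hv : Function.Injective v) (hv0 : ∀ j, v j ≠ 0)  {R0 : ℕ} (m : Fin R0 → Fin N → ℕ)
    (hm : Function.Injective m) (hmv : ∀ j, ∃ x, m x = v j)
    (hull : ∀ x, InC v Finset.univ (m x)) (J : Finset (Fin N))
    (q : ℕ) (hq : 2 ≤ q) (e : Finset (Fin R0) → ℂ) (he : KRelJ q m J e) (hns : SRel q m e)
    (T0 : ℂ) (hT0 : T0 ≠ 0)
    (σ : ℚ) (hσ1 : σ ≠ 1) (hσ : ¬ RT v (-σ))
    (hlog : Real.log ‖T0‖ / Real.log q = (σ : ℝ)) : RecJ q m e J T0 := by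
  classical
  by_cases hJ : J.card ≤ 2
  · exact recJ_plane3 v hv hv0 m hm hmv hull J hJ q hq e he hns T0 hT0 σ hσ1 hσ hlog
  · have hJu : J = Finset.univ := by
      apply Finset.eq_univ_of_card
      have h1 := Finset.card_le_univ J
      rw [Fintype.card_fin] at h1 ⊢
      omega
    subst hJu
    exact recJ_full hN3 v hv hv0 m hm hmv (fun x => by
      obtain ⟨c, h1, -, h3, h4⟩ := hull x
      exact ⟨c, h1, h3, fun i => (h4 i).le, fun i _ => h4 i⟩) q hq e he T0 hT0 σ hσ1 hσ hlog

end Pool.Agent.TH216.G4
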